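import Pool.Agent.Helper26.HN.Stmts

/-! # Row INZ (MP_56acfd_mp): integrability near the nuclei -/

set_option autoImplicit false

namespace Pool.Agent.Helper74.HN

open MeasureTheory Filter Pool.Agent.Helper95 Pool.Agent.Helper95.PW Pool.Agent.Helper95.LN
  Pool.Agent.Helper26.HN

theorem nr_cont : Continuous nr := by
  unfold nr
  fun_prop

theorem nr_nonneg' (y : R3) : 0 ≤ nr y := Real.sqrt_nonneg _

theorem nrs_meas {n M : ℕ} (X : Fin M → R3) (k : Fin n) (j : Fin M) :
    Measurable (fun x : Cf n => nr (x k - X j)) := by
  have h : Continuous (fun x : Cf n => nr (x k - X j)) :=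
    nr_cont.comp ((continuous_apply k).sub continuous_const)
  exact h.measurable

theorem near1_meas {n M : ℕ} (X : Fin M → R3) (b : ℝ) :
    Measurable (fun x : Cf n => ∑ k, near1 X b (x k)) := by
  unfold near1
  refine Finset.measurable_sum _ fun k _ => Finset.measurable_sum _ fun j _ => ?_
  exact Measurable.ite (measurableSet_lt (nrs_meas X k j) measurable_const)
    ((nrs_meas X k j).const_div 1) measurable_const

theorem nbr_meas {n M : ℕ} (X : Fin M → R3) (b : ℝ) :
    Measurable (fun x : Cf n => ∑ k, nbr X b (x k)) := by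
  unfold nbr
  refine Finset.measurable_sum _ fun k _ => Finset.measurable_sum _ fun j _ => ?_
  exact Measurable.ite (measurableSet_lt (nrs_meas X k j) measurable_const)
    measurable_const measurable_const

theorem INZ (hI : ST_INTM) : ST_INZ := by
  intro n M X b u hu
  refine ⟨fun s => ?_, fun s => ?_⟩
  · obtain ⟨h1, -, -, -⟩ := hI n M X (fun _ => 1) (u s) (u s) (hu s).1 (hu s).2 (hu s).1 (hu s).2
    refine h1.mono' ((near1_meas X b).aestronglyMeasurable.mul
      ((hu s).1.continuous.pow 2).aestronglyMeasurable) (Eventually.of_forall fun x => ?_)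
    have hn0 : 0 ≤ ∑ k, near1 X b (x k) := by
      unfold near1
      refine Finset.sum_nonneg fun k _ => Finset.sum_nonneg fun j _ => ?_
      split_ifs
      · exact one_div_nonneg.2 (nr_nonneg' _)
      · exact le_rfl
    have hle : ∑ k, near1 X b (x k) ≤ ∑ k, pot X (fun _ => 1) (x k) := by
      unfold near1 pot
      refine Finset.sum_le_sum fun k _ => Finset.sum_le_sum fun j _ => ?_
      split_ifs
      · exact le_rfl
      · exact one_div_nonneg.2 (nr_nonneg' _)
    rw [Real.norm_of_nonneg (mul_nonneg hn0 (sq_nonneg _)), ← pow_two]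
    exact mul_le_mul_of_nonneg_right hle (sq_nonneg _)
  · have h1 : Integrable (fun x : Cf n => ((n : ℝ) * M) * u s x ^ 2) := by
      apply Integrable.const_mul
      have h2 : Continuous (fun x : Cf n => u s x ^ 2) := (hu s).1.continuous.pow 2
      apply h2.integrable_of_hasCompactSupport
      have h3 : (fun x : Cf n => u s x ^ 2) = fun x => u s x * u s x := by
        funext x
        ring
      rw [h3]
      exact (hu s).2.mul_left
    refine h1.mono' ((nbr_meas X b).aestronglyMeasurable.mul
      ((hu s).1.continuous.pow 2).aestronglyMeasurable) (Eventually.of_forall fun x => ?_)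
    have hn0 : 0 ≤ ∑ k, nbr X b (x k) := by
      unfold nbr
      refine Finset.sum_nonneg fun k _ => Finset.sum_nonneg fun j _ => ?_
      split_ifs
      · exact zero_le_one
      · exact le_rfl
    have hle : ∑ k, nbr X b (x k) ≤ (n : ℝ) * M := by
      unfold nbr
      calc ∑ k : Fin n, ∑ j : Fin M, (if nr (x k - X j) < b then (1 : ℝ) else 0) ≤
          ∑ _k : Fin n, ∑ _j : Fin M, (1 : ℝ) := by
            refine Finset.sum_le_sum fun k _ => Finset.sum_le_sum fun j _ => ?_
            split_ifs
            · exact le_rfl
            · exact zero_le_one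
        _ = (n : ℝ) * M := by simp
    rw [Real.norm_of_nonneg (mul_nonneg hn0 (sq_nonneg _))]
    exact mul_le_mul_of_nonneg_right hle (sq_nonneg _)

end Pool.Agent.Helper74.HN
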